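import Pool.Agent.W544.FF.Defs
import Pool.Agent.W544.PG.MainP

/-!
# (TRZ) the trace of a block of a skew operator, (ORB) orthonormal coordinates by blocks
-/

open Matrix Finset Module

namespace Pool.Agent.W839.FF

open Pool.Agent.W544.PG Pool.Agent.W544.FF

noncomputable section

theorem bd_mul {n r : ℕ} {R : Type} [CommRing R] {c : Fin n → Fin r}
    {A B : Matrix (Fin n) (Fin n) R} (hA : BD c A) (hB : BD c B) : BD c (A * B) := by
  intro a b h
  rw [Matrix.mul_apply]
  refine Finset.sum_eq_zero fun x _ => ?_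
  by_cases hx : c a = c x
  · rw [hB x b (by rw [← hx]; exact h), mul_zero]
  · rw [hA a x hx, zero_mul]

theorem diag_comm {n r : ℕ} {K : Type} [Field K] {c : Fin n → Fin r}
    {A : Matrix (Fin n) (Fin n) K} (hA : BD c A) (i : Fin r) :
    Matrix.diagonal (fun a => if c a = i then (1 : K) else 0) * A =
      A * Matrix.diagonal (fun a => if c a = i then (1 : K) else 0) := by
  ext a b
  rw [Matrix.diagonal_mul, Matrix.mul_diagonal]
  by_cases h : c a = c b
  · rw [h, mul_comm]
  · rw [hA a b h]; simp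

theorem trz : S_trz := by
  intro K _ _ n r c Q y hQ hy hs hd h i
  have hu : IsUnit Q.det := isUnit_iff_ne_zero.2 hd
  have hc := diag_comm hQ i
  have hc' := diag_comm hy i
  have e1 : (Matrix.diagonal (fun a => if c a = i then (1 : K) else 0) * y).trace =
      ∑ b with c b = i, y b b := by
    simp [Matrix.trace, Matrix.diagonal_mul, Finset.sum_filter]
  have hp : (Matrix.diagonal (fun a => if c a = i then (1 : K) else 0))ᵀ =
      Matrix.diagonal (fun a => if c a = i then (1 : K) else 0) := Matrix.diagonal_transpose _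
  generalize Matrix.diagonal (fun a => if c a = i then (1 : K) else 0) = P at hc hc' e1 hp
  have e2 : y = -(Q⁻¹ * (yᵀ * Q)) := by
    have h1 : yᵀ * Q = -(Q * y) := eq_neg_of_add_eq_zero_left h
    rw [h1, Matrix.mul_neg, neg_neg, ← Matrix.mul_assoc, Matrix.nonsing_inv_mul Q hu,
      Matrix.one_mul]
  have e4 : (P * (Q⁻¹ * (yᵀ * Q))).trace = (P * y).trace := by
    have h2 : P * (Q⁻¹ * (yᵀ * Q)) = P * Q⁻¹ * yᵀ * Q := by simp only [Matrix.mul_assoc]
    have h3 : Q * (P * Q⁻¹ * yᵀ) = P * yᵀ := by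
      calc Q * (P * Q⁻¹ * yᵀ) = (Q * P) * Q⁻¹ * yᵀ := by simp only [Matrix.mul_assoc]
        _ = P * (Q * Q⁻¹) * yᵀ := by rw [← hc]; simp only [Matrix.mul_assoc]
        _ = P * yᵀ := by rw [Matrix.mul_nonsing_inv Q hu, Matrix.mul_one]
    rw [h2, Matrix.trace_mul_comm, h3, ← Matrix.trace_transpose, Matrix.transpose_mul,
      Matrix.transpose_transpose, hp, Matrix.trace_mul_comm]
  have e3 : (P * y).trace = -(P * y).trace := by
    conv_lhs => rw [e2]
    rw [Matrix.mul_neg, Matrix.trace_neg, e4]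
  rw [← e1]
  exact self_eq_neg.1 e3

theorem sel_ne {n k l r : ℕ} {c : Fin n → Fin r} {e : Fin k → Fin n} {e' : Fin l → Fin n}
    {i i' : Fin r} (he : Enum c e i) (he' : Enum c e' i') (h : i ≠ i') :
    (sel e)ᵀ * sel e' = 0 := by
  rw [sel_T_mul]
  ext a b
  simp only [Matrix.submatrix_apply, sel, Matrix.of_apply, id, Matrix.zero_apply]
  rw [if_neg]
  intro h1
  apply h
  rw [← he.col a, ← he'.col b, h1]

theorem block_unit {n k r : ℕ} {c : Fin n → Fin r} {e : Fin k → Fin n} {i : Fin r}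
    (he : Enum c e i) {Q : Matrix (Fin n) (Fin n) ℂ} (hQ : BD c Q) (hd : Q.det ≠ 0) :
    (Q.submatrix e e).det ≠ 0 := by
  have hu : IsUnit Q.det := isUnit_iff_ne_zero.2 hd
  have h1 : ((sel e)ᵀ * Q⁻¹ * sel e) * Q.submatrix e e = 1 := by
    rw [Matrix.mul_assoc, ← he.mul_sel hQ, Matrix.mul_assoc, ← Matrix.mul_assoc Q⁻¹,
      Matrix.nonsing_inv_mul Q hu, Matrix.one_mul, sel_T_sel e he.inj]
  exact (Matrix.isUnit_det_of_left_inverse h1).ne_zero

theorem orb : S_orb := by
  intro n r c Q hs hQ hd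
  choose e he using fun i : Fin r => exists_enum c i rfl
  have hM : ∀ i, (Q.submatrix (e i) (e i))ᵀ = Q.submatrix (e i) (e i) := fun i => by
    rw [Matrix.transpose_submatrix, hs]
  choose g hg using fun i => Pool.Agent.W557.PG.orth (Q.submatrix (e i) (e i)) (hM i)
    (block_unit (he i) hQ hd)
  have hbd : ∀ i, BD c (sel (e i) * g i * (sel (e i))ᵀ) := by
    intro i a b hab
    rw [Matrix.mul_apply]
    refine Finset.sum_eq_zero fun x _ => ?_
    rw [Matrix.mul_apply, Finset.sum_mul]
    refine Finset.sum_eq_zero fun z _ => ?_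
    simp only [sel, Matrix.of_apply, Matrix.transpose_apply]
    by_cases h1 : e i z = a
    · by_cases h2 : e i x = b
      · exfalso
        apply hab
        rw [← h1, ← h2, (he i).col, (he i).col]
      · rw [if_neg h2, mul_zero]
    · rw [if_neg h1, zero_mul, zero_mul]
  have hu : BD c (∑ i, sel (e i) * g i * (sel (e i))ᵀ) := by
    intro a b hab
    rw [Matrix.sum_apply]
    exact Finset.sum_eq_zero fun i _ => hbd i a b hab
  have hsub : ∀ i, (∑ i, sel (e i) * g i * (sel (e i))ᵀ).submatrix (e i) (e i) = g i := by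
    intro i
    rw [sub_eq, Matrix.mul_sum, Matrix.sum_mul, Finset.sum_eq_single i]
    · calc (sel (e i))ᵀ * (sel (e i) * g i * (sel (e i))ᵀ) * sel (e i)
          = ((sel (e i))ᵀ * sel (e i)) * g i * ((sel (e i))ᵀ * sel (e i)) := by
            simp only [Matrix.mul_assoc]
        _ = g i := by rw [sel_T_sel _ (he i).inj, Matrix.one_mul, Matrix.mul_one]
    · intro j _ hj
      calc (sel (e i))ᵀ * (sel (e j) * g j * (sel (e j))ᵀ) * sel (e i)
          = ((sel (e i))ᵀ * sel (e j)) * g j * ((sel (e j))ᵀ * sel (e i)) := by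
            simp only [Matrix.mul_assoc]
        _ = 0 := by rw [sel_ne (he i) (he j) (Ne.symm hj), Matrix.zero_mul, Matrix.zero_mul]
    · simp
  refine ⟨_, hu, ?_⟩
  generalize (∑ i, sel (e i) * g i * (sel (e i))ᵀ) = u at hu hsub
  have hone : BD c (1 : Matrix (Fin n) (Fin n) ℂ) := by
    intro a b h
    exact Matrix.one_apply_ne fun h1 => h (by rw [h1])
  refine ext_of_sub he (bd_mul (bd_mul hu.transpose hQ) hu) hone fun i => ?_
  rw [(he i).sub_mul hu, (he i).sub_mul hQ, ← Matrix.transpose_submatrix, hsub, hg]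
  ext a b
  simp [Matrix.one_apply, (he i).inj.eq_iff]

end

end Pool.Agent.W839.FF
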